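import Pool.Agent.V11286.RL.OneC
import Pool.Agent.V35.WM

/-!
# Integer points on plane curves: one coefficient decides

Let `d ≥ 4`, let `x ^ i y ^ j` be a monomial of degree at most `d - 4` (for instance the constant term), and
`0 ≤ κ < 1 / (4 d - 2)`. For all integers `a`, `|a| ≤ X`, with at most `O(X ^ (κ (4 d - 2)))` exceptions, the following
holds for ALL the infinitely many polynomials `F ∈ ℤ[x, y]` of degree `d` in which `x ^ i y ^ j` has the coefficient `a` and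
the monomials of degree larger than `d - 4` have coefficients of absolute value at most `|a| ^ κ`, the other coefficients
being ARBITRARY: if `F` is irreducible over `ℚ`, has a squarefree leading form and satisfies a mild condition on its
restrictions to lines, then all the integer points of `F = 0` are bounded by an explicit power of the height of `F`. There
are no exceptions `a` at all in the windows `|a - α v_n| ≤ v_n ^ θ`, `n` large, for all real `α` outside a set of dimension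
at most `(κ (4 d - 2) + τ) / (1 - θ)`, where `τ` is the exponent of convergence of the sequence `v`.
-/

set_option autoImplicit false

open Finset MeasureTheory

namespace Pool.Agent.Results.MP_2d259b_nt.OneCoefficient

open Pool.Agent.V11286.RL Pool.Agent.V35.WM

lemma bad_thin {d i j : ℕ} (hd : 4 ≤ d) (hij : i + j + 4 ≤ d) {κ : ℝ} (hκ : 0 ≤ κ) (X : ℝ) (hX : 1 ≤ X) :
    {a : ℤ | a ∈ Bad d i j (fun a => |(a : ℝ)| ^ κ) ∧ |(a : ℝ)| ≤ X}.Finite ∧
      ({a : ℤ | a ∈ Bad d i j (fun a => |(a : ℝ)| ^ κ) ∧ |(a : ℝ)| ≤ X}.ncard : ℝ) ≤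
        (num d * 5 ^ (4 * d - 2) : ℕ) * X ^ (κ * (4 * d - 2)) := by
  have hX0 : 0 < X := by linarith
  have hfin : {a : ℤ | a ∈ Bad d i j (fun a => |(a : ℝ)| ^ κ) ∧ |(a : ℝ)| ≤ X}.Finite := by
    apply Set.Finite.subset (Set.finite_Icc (-(⌊X⌋₊ : ℤ)) ⌊X⌋₊)
    rintro a ⟨-, ha⟩
    have h1 : ((a.natAbs : ℕ) : ℝ) ≤ X := by
      rw [Nat.cast_natAbs, Int.cast_abs]
      exact ha
    have h2 : a.natAbs ≤ ⌊X⌋₊ := Nat.le_floor h1
    rw [Set.mem_Icc]
    omega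
  refine ⟨hfin, ?_⟩
  rw [Set.ncard_eq_toFinset_card _ hfin]
  have hXκ : 1 ≤ X ^ κ := Real.one_le_rpow hX hκ
  have h1 := count_one hd hij (fun a => |(a : ℝ)| ^ κ) ⌈X ^ κ⌉₊ hfin.toFinset (by
    intro a ha
    rw [Set.Finite.mem_toFinset] at ha
    refine ⟨ha.1, ?_⟩
    exact (Real.rpow_le_rpow (abs_nonneg _) ha.2 hκ).trans (Nat.le_ceil _))
  have h2 : ((2 * ⌈X ^ κ⌉₊ + 1 : ℕ) : ℝ) ≤ 5 * X ^ κ := by
    push_cast
    have := Nat.ceil_lt_add_one (by positivity : 0 ≤ X ^ κ)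
    linarith
  have hd4 : ((4 * d - 2 : ℕ) : ℝ) = 4 * d - 2 := by
    rw [Nat.cast_sub (by omega)]
    push_cast
    ring
  calc (hfin.toFinset.card : ℝ) ≤ ((num d * (2 * ⌈X ^ κ⌉₊ + 1) ^ (4 * d - 2) : ℕ) : ℝ) := by exact_mod_cast h1
    _ = (num d : ℝ) * ((2 * ⌈X ^ κ⌉₊ + 1 : ℕ) : ℝ) ^ (4 * d - 2) := by push_cast; ring
    _ ≤ (num d : ℝ) * (5 * X ^ κ) ^ (4 * d - 2) := by
        apply mul_le_mul_of_nonneg_left _ (Nat.cast_nonneg _)
        exact pow_le_pow_left₀ (Nat.cast_nonneg _) h2 _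
    _ = _ := by
        rw [mul_pow, ← Real.rpow_natCast (X ^ κ), ← Real.rpow_mul hX0.le, hd4]
        push_cast
        ring

/-- **Theorem.** Let `d ≥ 4`, `i + j ≤ d - 4` and `κ ≥ 0`. `Bad d i j (|a| ^ κ)` is the set of the integers `a` which are the
coefficient at `x ^ i y ^ j` of some `F ∈ Exc d` whose coefficients at the monomials of degree larger than `d - 4` are at
most `|a| ^ κ` in absolute value. (1) For every real `X ≥ 1` it has at most
`10 ^ 9 * 36 ^ d * (d + 1) ^ 8 * 5 ^ (4 d - 2) * X ^ (κ (4 d - 2))` elements with `|a| ≤ X`. (2) For all sequences `v ≥ 1`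
of exponent of convergence at most `τ ≥ 0` and all `θ < 1` there is a set `E` of real numbers, of Hausdorff dimension at
most `(κ (4 d - 2) + τ) / (1 - θ)`, and of measure zero if this is less than one, such that for each `α` outside `E` and
all but finitely many `n`: no polynomial `F`, whose coefficient `a` at `x ^ i y ^ j` satisfies
`|a - v n * α| ≤ (v n) ^ θ`, and whose coefficients at the monomials of degree larger than `d - 4` are at most `|a| ^ κ` in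
absolute value, is in `Exc d`. The sequences `b ^ n` and `(n + 1) ^ c` have exponent of convergence at most `0` and
`1 / c`. -/
theorem result (d i j : ℕ) (hij : i + j + 4 ≤ d) (κ : ℝ) (hκ : 0 ≤ κ) :
    (∀ X : ℝ, 1 ≤ X → {a : ℤ | a ∈ Bad d i j (fun a => |(a : ℝ)| ^ κ) ∧ |(a : ℝ)| ≤ X}.Finite ∧
      ({a : ℤ | a ∈ Bad d i j (fun a => |(a : ℝ)| ^ κ) ∧ |(a : ℝ)| ≤ X}.ncard : ℝ) ≤
        (10 ^ 9 * 36 ^ d * (d + 1) ^ 8 * 5 ^ (4 * d - 2) : ℕ) * X ^ (κ * (4 * d - 2))) ∧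
    (∀ (v : ℕ → ℝ) (τ θ : ℝ), (∀ n, 1 ≤ v n) → 0 ≤ τ → ExpLe v τ → θ < 1 →
      ∃ E : Set ℝ, dimH E ≤ ENNReal.ofReal ((κ * (4 * d - 2) + τ) / (1 - θ)) ∧
        ((κ * (4 * d - 2) + τ) / (1 - θ) < 1 → volume E = 0) ∧
        ∀ α : ℝ, α ∉ E → ∃ n₀ : ℕ, ∀ n : ℕ, n₀ ≤ n → ∀ (F : MvPolynomial (Fin 2) ℤ) (a : ℤ),
          F.coeff (Finsupp.single 0 i + Finsupp.single 1 j) = a → |(a : ℝ) - v n * α| ≤ (v n) ^ θ →
          (∀ m : Fin 2 →₀ ℕ, d ≤ m 0 + m 1 + 3 → |((F.coeff m : ℤ) : ℝ)| ≤ |(a : ℝ)| ^ κ) → F ∉ Exc d) ∧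
    (∀ b : ℝ, 1 < b → ExpLe (fun n : ℕ => b ^ n) 0) ∧
    (∀ c : ℝ, 0 < c → ExpLe (fun n : ℕ => ((n : ℝ) + 1) ^ c) (1 / c)) := by
  have hd : 4 ≤ d := by omega
  have hd' : (4 : ℝ) ≤ d := by exact_mod_cast hd
  refine ⟨fun X hX => bad_thin hd hij hκ X hX, fun v τ θ hv hτ hE hθ1 => ?_, fun b hb => expLe_geom b hb,
    fun c hc => expLe_pow c hc⟩
  have h1θ : 0 < 1 - θ := by linarith
  have hs0 : 0 ≤ κ * (4 * (d : ℝ) - 2) := mul_nonneg hκ (by linarith)
  have hthin : Thin (Bad d i j (fun a => |(a : ℝ)| ^ κ)) (fun a : ℤ => (a : ℝ)) (κ * (4 * (d : ℝ) - 2)) := by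
    intro ε hε
    refine ⟨(num d * 5 ^ (4 * d - 2) : ℕ), fun X hX => ?_⟩
    obtain ⟨h1, h2⟩ := bad_thin hd hij hκ X hX
    refine ⟨h1, h2.trans ?_⟩
    apply mul_le_mul_of_nonneg_left _ (Nat.cast_nonneg _)
    exact Real.rpow_le_rpow_of_exponent_le hX (by linarith)
  have h1 := dim_badWin hv hτ hE hs0 hθ1 hthin
  refine ⟨BadWin (Bad d i j (fun a => |(a : ℝ)| ^ κ)) (fun a : ℤ => (a : ℝ)) v θ, h1, fun hlt => ?_, fun α hα => ?_⟩
  · have h2 : dimH (BadWin (Bad d i j (fun a => |(a : ℝ)| ^ κ)) (fun a : ℤ => (a : ℝ)) v θ) < ((1 : NNReal) : ENNReal) := by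
      refine h1.trans_lt ?_
      rw [ENNReal.coe_one]
      exact ENNReal.ofReal_lt_one.2 hlt
    have h4 := hausdorffMeasure_of_dimH_lt h2
    rw [← hausdorffMeasure_real]
    simpa using h4
  · rw [BadWin] at hα
    by_contra hcon
    apply hα
    intro n1
    push Not at hcon
    obtain ⟨n, hn, F, a, h2, h3, h4, h5⟩ := hcon n1
    refine ⟨n, hn, a, ⟨F, h5, h2, h4⟩, ?_⟩
    rw [smul_eq_mul, Real.norm_eq_abs]
    exact h3

end Pool.Agent.Results.MP_2d259b_nt.OneCoefficient
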