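import Pool.Agent.Results.MP_2d259b_nt.AllFibres
import Pool.Agent.V11326.WE

/-!
# Integer points in all fibres of windows around a thin sequence

Let `F ∈ ℤ[x, y]` have degree `d ≥ 4` and a leading form which is squarefree over `ℚ`. Let `v ≥ 1` be a sequence with
exponent of convergence at most `τ` (for `v_n = b ^ n` it is `0`, for `v_n = n ^ a` it is `1 / a`) and `θ < 1`. For all
`α > 0` outside a set of Hausdorff dimension at most `(1 / d + τ) / (1 - θ)` and all but finitely many `n`, for ALL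
integers `t` with `| |t| - α v_n | ≤ v_n ^ θ` all integer solutions of `F(x, y) = t` satisfy
`max(|x|, |y|) ≤ |t| ^ (2 * 10 ^ 11 * 36 ^ d * (d + 1) ^ 13 + 1)`.
-/

set_option autoImplicit false

open Finset Filter Topology

namespace Pool.Agent.Results.MP_2d259b_nt.WindowsOfFibres

/-- the exponent of convergence of the sequence `v` is at most `τ` -/
def ExpLe (v : ℕ → ℝ) (τ : ℝ) : Prop := ∀ t : ℝ, τ < t → Summable (fun n : ℕ => (v n) ^ (-t))

/-- the exponent of the bound for the solutions -/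
def expo (d : ℕ) : ℕ := 2 * 10 ^ 11 * 36 ^ d * (d + 1) ^ 13

/-- the windows from the number of the exceptional fibres -/
lemma core (d e K h₀ : ℕ) (hd : 1 ≤ d) (F : MvPolynomial (Fin 2) ℤ)
    (key : ∀ H : ℕ, h₀ ≤ H → (Set.ncard {t : ℤ | |t| ≤ (H : ℤ) ∧ ∃ x y : ℤ, MvPolynomial.eval ![x, y] F = t ∧
      ((d + 1) * H) ^ e < max x.natAbs y.natAbs} : ℝ) ≤ (K : ℝ) * (H : ℝ) ^ (1 / (d : ℝ)))
    (v : ℕ → ℝ) (τ θ : ℝ) (hv : ∀ n, 1 ≤ v n) (hτ : 0 ≤ τ) (hE : ExpLe v τ) (hθ1 : θ < 1) :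
    ∃ E : Set ℝ, dimH E ≤ ENNReal.ofReal ((1 / (d : ℝ) + τ) / (1 - θ)) ∧
      ∀ α : ℝ, 0 < α → α ∉ E → ∃ n₀ : ℕ, ∀ n : ℕ, n₀ ≤ n →
        ∀ t : ℤ, |((|t| : ℤ) : ℝ) - α * v n| ≤ (v n) ^ θ →
          ∀ x y : ℤ, MvPolynomial.eval ![x, y] F = t → max |x| |y| ≤ |t| ^ (e + 1) := by
  classical
  have hd0 : (0 : ℝ) < d := by
    have : 0 < d := by omega
    exact_mod_cast this
  obtain ⟨E, hE1, hE2⟩ := Pool.Agent.V11326.WE.windowsExp
    (fun Z : ℝ => {t : ℤ | ∃ x y : ℤ, MvPolynomial.eval ![x, y] F = t ∧ Z < ((max |x| |y| : ℤ) : ℝ)})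
    (fun t : ℤ => ((|t| : ℤ) : ℝ)) (v := v) (s := 1 / (d : ℝ)) (τ := τ) (θ := θ) (β := (e : ℝ) + 1 / 2)
    hv hτ hE (by positivity) hθ1 (by positivity)
    (by
      rintro Y Z hYZ t ⟨x, y, h1, h2⟩
      exact ⟨x, y, h1, lt_of_le_of_lt hYZ h2⟩)
    (by
      intro ε hε
      -- for large `X` the bound of the theorem is at most `X ^ β`
      have hlarge : ∀ᶠ X : ℝ in atTop, ((d : ℝ) + 1) * (2 * X) ≤ X ^ (1 + 1 / (2 * ((e : ℝ) + 1))) := by
        have h1 : Tendsto (fun X : ℝ => X ^ (1 / (2 * ((e : ℝ) + 1)))) atTop atTop :=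
          tendsto_rpow_atTop (by positivity)
        filter_upwards [h1.eventually_ge_atTop (((d : ℝ) + 1) * 2), eventually_ge_atTop 1] with X hX hX1
        rw [Real.rpow_add (by linarith), Real.rpow_one]
        nlinarith
      obtain ⟨X₁, hX₁⟩ := eventually_atTop.1 hlarge
      refine ⟨(K : ℝ) * 2, max X₁ (max (h₀ + 1) 1), fun X hX => ?_⟩
      have hXX₁ : X₁ ≤ X := (le_max_left _ _).trans hX
      have hXh : (h₀ : ℝ) + 1 ≤ X := ((le_max_left _ _).trans (le_max_right _ _)).trans hX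
      have hX1 : (1 : ℝ) ≤ X := ((le_max_right _ _).trans (le_max_right _ _)).trans hX
      have hX0 : 0 ≤ X := by linarith
      obtain ⟨H, hH⟩ : ∃ H : ℕ, H = ⌈X⌉₊ := ⟨_, rfl⟩
      have hXH : X ≤ H := by
        rw [hH]
        exact Nat.le_ceil X
      have hHX : (H : ℝ) ≤ 2 * X := by
        rw [hH]
        linarith [Nat.ceil_lt_add_one hX0]
      have hh : h₀ ≤ H := by
        have : (h₀ : ℝ) ≤ H := by linarith
        exact_mod_cast this
      have key' := key H hh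
      have hbd : ((((d + 1) * H) ^ e : ℕ) : ℝ) ≤ X ^ ((e : ℝ) + 1 / 2) := by
        have h1 : ((((d + 1) * H) ^ e : ℕ) : ℝ) ≤ (X ^ (1 + 1 / (2 * ((e : ℝ) + 1)))) ^ e := by
          push_cast
          apply pow_le_pow_left₀ (by positivity)
          refine le_trans ?_ (hX₁ X hXX₁)
          exact mul_le_mul_of_nonneg_left hHX (by positivity)
        refine h1.trans ?_
        rw [← Real.rpow_natCast, ← Real.rpow_mul hX0]
        apply Real.rpow_le_rpow_of_exponent_le hX1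
        have h2 : (0 : ℝ) < (e : ℝ) + 1 := by positivity
        have h3 : 1 / (2 * ((e : ℝ) + 1)) * (e : ℝ) ≤ 1 / 2 := by
          rw [div_mul_eq_mul_div, div_le_div_iff₀ (by positivity) (by norm_num)]
          linarith
        nlinarith
      have hsub : {t : ℤ | t ∈ {t : ℤ | ∃ x y : ℤ, MvPolynomial.eval ![x, y] F = t ∧
            X ^ ((e : ℝ) + 1 / 2) < ((max |x| |y| : ℤ) : ℝ)} ∧ ((|t| : ℤ) : ℝ) ≤ X} ⊆
          {t : ℤ | |t| ≤ (H : ℤ) ∧ ∃ x y : ℤ, MvPolynomial.eval ![x, y] F = t ∧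
            ((d + 1) * H) ^ e < max x.natAbs y.natAbs} := by
        rintro t ⟨⟨x, y, h1, h2⟩, h3⟩
        have h3' : ((|t| : ℤ) : ℝ) ≤ ((H : ℤ) : ℝ) := by
          rw [Int.cast_natCast]
          linarith
        refine ⟨by exact_mod_cast h3', x, y, h1, ?_⟩
        have h6 : ((max |x| |y| : ℤ) : ℝ) = ((max x.natAbs y.natAbs : ℕ) : ℝ) := by
          have : (max |x| |y| : ℤ) = ((max x.natAbs y.natAbs : ℕ) : ℤ) := by
            rw [Nat.cast_max, Int.natCast_natAbs, Int.natCast_natAbs]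
          rw [this, Int.cast_natCast]
        rw [h6] at h2
        exact_mod_cast lt_of_le_of_lt hbd h2
      have hfin : {t : ℤ | |t| ≤ (H : ℤ) ∧ ∃ x y : ℤ, MvPolynomial.eval ![x, y] F = t ∧
            ((d + 1) * H) ^ e < max x.natAbs y.natAbs}.Finite :=
        (Set.finite_Icc (-(H : ℤ)) H).subset fun t ht => abs_le.1 ht.1
      refine ⟨hfin.subset hsub, ?_⟩
      refine le_trans (by exact_mod_cast Set.ncard_le_ncard hsub hfin) (key'.trans ?_)
      rw [mul_assoc]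
      apply mul_le_mul_of_nonneg_left _ (Nat.cast_nonneg _)
      have h5 : (H : ℝ) ^ (1 / (d : ℝ)) ≤ 2 * X ^ (1 / (d : ℝ)) := by
        calc (H : ℝ) ^ (1 / (d : ℝ)) ≤ (2 * X) ^ (1 / (d : ℝ)) :=
              Real.rpow_le_rpow (Nat.cast_nonneg _) hHX (by positivity)
          _ = 2 ^ (1 / (d : ℝ)) * X ^ (1 / (d : ℝ)) := Real.mul_rpow (by norm_num) hX0
          _ ≤ 2 * X ^ (1 / (d : ℝ)) := by
              apply mul_le_mul_of_nonneg_right _ (Real.rpow_nonneg hX0 _)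
              calc (2 : ℝ) ^ (1 / (d : ℝ)) ≤ 2 ^ (1 : ℝ) := by
                    apply Real.rpow_le_rpow_of_exponent_le (by norm_num)
                    rw [div_le_one hd0]
                    exact_mod_cast hd
                _ = 2 := Real.rpow_one 2
      refine h5.trans ?_
      apply mul_le_mul_of_nonneg_left _ (by norm_num)
      exact Real.rpow_le_rpow_of_exponent_le hX1 (by linarith))
  refine ⟨E, hE1, fun α hα hαE => ?_⟩
  obtain ⟨n₀, hn⟩ := hE2 α hα hαE ((e : ℝ) + 1) (by linarith)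
  refine ⟨n₀, fun n hn1 t hw x y hxy => ?_⟩
  by_contra hcon
  push Not at hcon
  refine hn n hn1 t hw ⟨x, y, hxy, ?_⟩
  have h1 : ((|t| : ℤ) : ℝ) ^ ((e : ℝ) + 1) = ((|t| ^ (e + 1) : ℤ) : ℝ) := by
    rw [show ((e : ℝ) + 1) = ((e + 1 : ℕ) : ℝ) by push_cast; ring, Real.rpow_natCast, Int.cast_pow]
  show ((|t| : ℤ) : ℝ) ^ ((e : ℝ) + 1) < _
  rw [h1]
  exact_mod_cast hcon

/-- **Theorem.** Let `F ∈ ℤ[x, y]` have degree `d ≥ 4` and a leading form which is squarefree over `ℚ`. (1) For all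
sequences `v ≥ 1` of exponent of convergence at most `τ ≥ 0` and all `θ < 1` there is a set `E` of Hausdorff dimension at
most `(1 / d + τ) / (1 - θ)` such that for each `α > 0` outside `E` and all but finitely many `n`: for ALL integers `t` with
`| |t| - α v_n | ≤ v_n ^ θ` all integer solutions of `F(x, y) = t` satisfy `max(|x|, |y|) ≤ |t| ^ (expo d + 1)`.
(2) The sequences `v_n = (n + 1) ^ a` and `v_n = b ^ n` have exponent of convergence at most `1 / a` and `0`. -/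
theorem result (d : ℕ) (hd : 4 ≤ d) (F : MvPolynomial (Fin 2) ℤ) (hF : F.totalDegree = d)
    (hsq : Squarefree (MvPolynomial.map (Int.castRingHom ℚ)
      (MvPolynomial.homogeneousComponent d F))) :
    (∀ (v : ℕ → ℝ) (τ θ : ℝ), (∀ n, 1 ≤ v n) → 0 ≤ τ → ExpLe v τ → θ < 1 →
      ∃ E : Set ℝ, dimH E ≤ ENNReal.ofReal ((1 / (d : ℝ) + τ) / (1 - θ)) ∧
        ∀ α : ℝ, 0 < α → α ∉ E → ∃ n₀ : ℕ, ∀ n : ℕ, n₀ ≤ n →
          ∀ t : ℤ, |((|t| : ℤ) : ℝ) - α * v n| ≤ (v n) ^ θ →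
            ∀ x y : ℤ, MvPolynomial.eval ![x, y] F = t → max |x| |y| ≤ |t| ^ (expo d + 1)) ∧
    (∀ a : ℝ, 0 < a → ExpLe (fun n : ℕ => ((n : ℝ) + 1) ^ a) (1 / a)) ∧
    (∀ b : ℝ, 1 < b → ExpLe (fun n : ℕ => b ^ n) 0) := by
  refine ⟨?_, fun κ hκ => Pool.Agent.Y854.GM.expLe_pow κ hκ, fun b hb => Pool.Agent.Y854.GM.expLe_geom b hb⟩
  intro v τ θ hv hτ hE hθ1
  exact core d (expo d) (10 ^ 9 * 36 ^ d * (d + 1) ^ 7) (∑ m ∈ F.support, (F.coeff m).natAbs) (by omega) F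
    (fun H hH => Pool.Agent.Results.MP_2d259b_nt.AllFibres.result d hd F hF hsq H hH) v τ θ hv hτ hE hθ1

end Pool.Agent.Results.MP_2d259b_nt.WindowsOfFibres
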