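import Pool.Agent.V11286.RL.Thr
import Pool.Agent.V35.WM
import Pool.Agent.Results.MP_2d259b_nt.AlmostAllThroughPoints

/-!
# Plane curves through given points without further integer points, in windows of equations

Let `S` be a finite set of integer points of the plane, `d ≥ 2 |S| + 4`, and let `V` be the space of the real polynomials
in two variables of degree at most `d` which vanish on `S`. Let `v` be a sequence with exponent of convergence at most `τ`
(for `b ^ n` it is `0`) and `θ < 1`. For all `α ∈ V` outside a set of dimension at most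
`(dim V - 1 / (10 ^ 4 d) + τ) / (1 - θ)`, for all but finitely many `n`, NO integral polynomial `F ∈ V` at distance at most
`v_n ^ θ` from `v_n α` has an integer zero outside `S`. The dimension is smaller than that of `V` for small `τ` and `θ`.
-/

set_option autoImplicit false

open Finset MeasureTheory Module

namespace Pool.Agent.Results.MP_2d259b_nt.WindowsThroughPoints

open Pool.Agent.V11286.RL Pool.Agent.V35.WM
open Pool.Agent.H322R2 (Ix mem_Ix card_Ix)

/-- the integral polynomials of degree at most `d` which vanish on `S` and have an integer zero outside `S` -/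
def Further (d : ℕ) (S : Finset (ℤ × ℤ)) : Set (MvPolynomial (Fin 2) ℤ) :=
  {F | F.totalDegree ≤ d ∧ (∀ p ∈ S, MvPolynomial.eval ![p.1, p.2] F = 0) ∧
    ∃ x y : ℤ, (x, y) ∉ S ∧ MvPolynomial.eval ![x, y] F = 0}

lemma coeff_le {d : ℕ} {F : MvPolynomial (Fin 2) ℤ} {X : ℝ} (hX : 0 ≤ X) (hF : F.totalDegree ≤ d)
    (h : ‖vec d F‖ ≤ X) (m : Fin 2 →₀ ℕ) : |F.coeff m| ≤ ((⌊X⌋₊ : ℕ) : ℤ) := by
  have hm : m = Finsupp.single 0 (m 0) + Finsupp.single 1 (m 1) := by
    ext i
    fin_cases i <;> simp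
  by_cases hd : m 0 + m 1 ≤ d
  · have h1 := (pi_norm_le_iff_of_nonneg hX).1 h ⟨(m 0, m 1), mem_Ix.2 hd⟩
    rw [vec] at h1
    simp only at h1
    rw [← hm, Real.norm_eq_abs, ← Int.cast_abs] at h1
    have h2 : (((F.coeff m).natAbs : ℕ) : ℝ) ≤ X := by
      rw [Nat.cast_natAbs]
      exact h1
    have h3 : (F.coeff m).natAbs ≤ ⌊X⌋₊ := Nat.le_floor h2
    rw [Int.abs_eq_natAbs]
    exact_mod_cast h3
  · have h0 : F.coeff m = 0 := by
      by_contra hne
      have h1 : m ∈ F.support := MvPolynomial.mem_support_iff.2 hne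
      have h2 := (MvPolynomial.le_totalDegree h1).trans hF
      rw [Finsupp.sum_fintype _ _ (fun _ => rfl), Fin.sum_univ_two] at h2
      omega
    rw [h0, abs_zero]
    positivity

lemma exists_bound (S : Finset (ℤ × ℤ)) : ∃ B : ℕ, ∀ p ∈ S, |p.1| ≤ (B : ℤ) ∧ |p.2| ≤ (B : ℤ) := by
  refine ⟨∑ p ∈ S, (p.1.natAbs + p.2.natAbs), fun p hp => ?_⟩
  have h1 := Finset.single_le_sum (f := fun p : ℤ × ℤ => p.1.natAbs + p.2.natAbs) (fun _ _ => Nat.zero_le _) hp
  rw [Int.abs_eq_natAbs, Int.abs_eq_natAbs]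
  constructor <;> (norm_cast; omega)

lemma further_thin {d : ℕ} (S : Finset (ℤ × ℤ)) (hd : 2 * S.card + 4 ≤ d) :
    Thin (Further d S) (vec d) (finrank ℝ (Van d S) - 1 / (10 ^ 4 * (d : ℝ))) := by
  obtain ⟨B, hB⟩ := exists_bound S
  intro ε hε
  refine ⟨AlmostAllThroughPoints.K d B S.card * 2 * 3 ^ (finrank ℝ (Van d S)), fun X hX => ?_⟩
  have hX0 : 0 < X := by linarith
  have hd0 : (0 : ℝ) < d := by
    have : 0 < d := by omega
    exact_mod_cast this
  set H : ℕ := ⌊X⌋₊ with hH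
  have hH1 : 1 ≤ H := Nat.le_floor (by simpa using hX)
  have hHX : (H : ℝ) ≤ X := Nat.floor_le hX0.le
  have hXH : X / 2 ≤ H := by
    have h1 := Nat.lt_floor_add_one X
    rw [← hH] at h1
    have h2 : (1 : ℝ) ≤ H := by exact_mod_cast hH1
    linarith
  obtain ⟨h1, -, h3⟩ := AlmostAllThroughPoints.result S B d hd hB H hH1
  have hsub : {F | F ∈ Further d S ∧ ‖vec d F‖ ≤ X} ⊆ AlmostAllThroughPoints.Exc d H S := by
    rintro F ⟨⟨g1, g2, g3⟩, g4⟩
    exact ⟨⟨g1, coeff_le hX0.le g1 g4, g2⟩, g3⟩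
  have hfin : (AlmostAllThroughPoints.Exc d H S).Finite := h1.subset (fun F hF => hF.1)
  refine ⟨hfin.subset hsub, ?_⟩
  have h4 : (({F | F ∈ Further d S ∧ ‖vec d F‖ ≤ X}.ncard : ℕ) : ℝ) ≤
      ((AlmostAllThroughPoints.Exc d H S).ncard : ℝ) := by
    exact_mod_cast Set.ncard_le_ncard hsub hfin
  refine h4.trans (h3.trans ?_)
  have hK : 0 ≤ AlmostAllThroughPoints.K d B S.card := by
    unfold AlmostAllThroughPoints.K
    positivity
  set ρ : ℝ := 1 / (10 ^ 4 * (d : ℝ)) with hρ
  have hρ0 : 0 < ρ := by rw [hρ]; positivity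
  have hρ1 : ρ ≤ 1 := by
    rw [hρ, div_le_one (by positivity)]
    have : (1 : ℝ) ≤ d := by
      have : 1 ≤ d := by omega
      exact_mod_cast this
    linarith
  have h5 : (H : ℝ) ^ (-ρ) ≤ 2 * X ^ (-ρ) := by
    calc (H : ℝ) ^ (-ρ) ≤ (X / 2) ^ (-ρ) := Real.rpow_le_rpow_of_nonpos (by positivity) hXH (by linarith)
      _ = 2 ^ ρ * X ^ (-ρ) := by
          rw [Real.div_rpow hX0.le zero_le_two, Real.rpow_neg zero_le_two, div_inv_eq_mul, mul_comm]
      _ ≤ 2 * X ^ (-ρ) := by
          apply mul_le_mul_of_nonneg_right _ (by positivity)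
          calc (2 : ℝ) ^ ρ ≤ 2 ^ (1 : ℝ) := Real.rpow_le_rpow_of_exponent_le one_le_two hρ1
            _ = 2 := Real.rpow_one _
  have h6 : ((AlmostAllThroughPoints.Fam d H S).ncard : ℝ) ≤ (3 * X) ^ (finrank ℝ (Van d S)) := by
    have h7 := ncard_van d S H
    have h8 : ((AlmostAllThroughPoints.Fam d H S).ncard : ℝ) ≤ ((2 * H + 1 : ℕ) : ℝ) ^ (finrank ℝ (Van d S)) := by
      exact_mod_cast h7
    refine h8.trans (pow_le_pow_left₀ (Nat.cast_nonneg _) ?_ _)
    push_cast
    linarith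
  calc AlmostAllThroughPoints.K d B S.card * (H : ℝ) ^ (-ρ) * ((AlmostAllThroughPoints.Fam d H S).ncard : ℝ)
      ≤ AlmostAllThroughPoints.K d B S.card * (2 * X ^ (-ρ)) * (3 * X) ^ (finrank ℝ (Van d S)) := by
        apply mul_le_mul _ h6 (Nat.cast_nonneg _) (by positivity)
        exact mul_le_mul_of_nonneg_left h5 hK
    _ = AlmostAllThroughPoints.K d B S.card * 2 * 3 ^ (finrank ℝ (Van d S)) *
          (X ^ (((finrank ℝ (Van d S) : ℕ) : ℝ)) * X ^ (-ρ)) := by
        rw [mul_pow, Real.rpow_natCast]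
        ring
    _ = AlmostAllThroughPoints.K d B S.card * 2 * 3 ^ (finrank ℝ (Van d S)) *
          X ^ (((finrank ℝ (Van d S) : ℕ) : ℝ) - ρ) := by
        rw [← Real.rpow_add hX0, ← sub_eq_add_neg]
    _ ≤ _ := by
        apply mul_le_mul_of_nonneg_left _ (by positivity)
        exact Real.rpow_le_rpow_of_exponent_le hX (by linarith)

/-- the space `Van d S` has dimension at least `(d + 1) (d + 2) / 2 - |S|` -/
lemma finrank_van (d : ℕ) (S : Finset (ℤ × ℤ)) : (d + 1) * (d + 2) / 2 ≤ finrank ℝ (Van d S) + S.card := by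
  classical
  let f : (↥(Ix d) → ℝ) →ₗ[ℝ] (↥S → ℝ) :=
    { toFun := fun a p => ∑ m : ↥(Ix d), a m * ((p.1.1 : ℝ) ^ m.1.1 * (p.1.2 : ℝ) ^ m.1.2)
      map_add' := by
        intro a b
        funext p
        simp only [Pi.add_apply, add_mul, Finset.sum_add_distrib]
      map_smul' := by
        intro c a
        funext p
        simp only [Pi.smul_apply, smul_eq_mul, mul_assoc, RingHom.id_apply, Finset.mul_sum] }
  have h1 : Van d S = LinearMap.ker f := by
    ext a
    rw [LinearMap.mem_ker]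
    constructor
    · intro h
      funext p
      exact h p.1 p.2
    · intro h p hp
      exact congrFun h ⟨p, hp⟩
  have h2 := LinearMap.finrank_range_add_finrank_ker f
  have h3 : finrank ℝ (LinearMap.range f) ≤ finrank ℝ (↥S → ℝ) := Submodule.finrank_le _
  rw [Module.finrank_fintype_fun_eq_card, Fintype.card_coe] at h3
  rw [Module.finrank_fintype_fun_eq_card, Fintype.card_coe, card_Ix] at h2
  rw [h1]
  omega

/-- **Theorem.** Let `S` be a finite set of integer points, `d ≥ 2 |S| + 4`, and let `r ≥ (d + 1) (d + 2) / 2 - |S|` be the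
dimension of the space `Van d S` of the real polynomials of degree at most `d` which vanish on `S`. For all sequences
`v ≥ 1` of exponent of convergence at most `τ ≥ 0` and all `θ < 1` there is a set `E` of Hausdorff dimension at most
`(r - 1 / (10 ^ 4 d) + τ) / (1 - θ)`, which is a null set for the `r`-dimensional measure if this number is smaller than
`r`, such that for each `α ∈ Van d S` outside `E` and all but finitely many `n`: no integral polynomial of degree at most
`d`, which vanishes on `S` and whose coefficients lie in the windows of radius `(v n) ^ θ` around those of `v n • α`, has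
an integer zero outside `S`. The sequences `b ^ n` and `(n + 1) ^ a` have exponent of convergence at most `0` and
`1 / a`. -/
theorem result (S : Finset (ℤ × ℤ)) (d : ℕ) (hd : 2 * S.card + 4 ≤ d) :
    (d + 1) * (d + 2) / 2 ≤ finrank ℝ (Van d S) + S.card ∧
    (∀ (v : ℕ → ℝ) (τ θ : ℝ), (∀ n, 1 ≤ v n) → 0 ≤ τ → ExpLe v τ → θ < 1 →
      ∃ E : Set (↥(Ix d) → ℝ),
        dimH E ≤ ENNReal.ofReal ((finrank ℝ (Van d S) - 1 / (10 ^ 4 * (d : ℝ)) + τ) / (1 - θ)) ∧
        ((finrank ℝ (Van d S) - 1 / (10 ^ 4 * (d : ℝ)) + τ) / (1 - θ) < finrank ℝ (Van d S) →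
          μH[(finrank ℝ (Van d S) : ℝ)] E = 0) ∧
        ∀ α ∈ Van d S, α ∉ E → ∃ n₀ : ℕ, ∀ n : ℕ, n₀ ≤ n → ∀ F : MvPolynomial (Fin 2) ℤ, F.totalDegree ≤ d →
          (∀ p ∈ S, MvPolynomial.eval ![p.1, p.2] F = 0) →
          (∀ m : ↥(Ix d), |((F.coeff (Finsupp.single 0 m.1.1 + Finsupp.single 1 m.1.2) : ℤ) : ℝ) - v n * α m| ≤
            (v n) ^ θ) →
          ∀ x y : ℤ, MvPolynomial.eval ![x, y] F = 0 → (x, y) ∈ S) ∧
    (∀ b : ℝ, 1 < b → ExpLe (fun n : ℕ => b ^ n) 0) ∧
    (∀ a : ℝ, 0 < a → ExpLe (fun n : ℕ => ((n : ℝ) + 1) ^ a) (1 / a)) := by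
  refine ⟨finrank_van d S, fun v τ θ hv hτ hE hθ1 => ?_, fun b hb => expLe_geom b hb, fun a ha => expLe_pow a ha⟩
  have h1θ : 0 < 1 - θ := by linarith
  have hd4 : 4 ≤ d := by omega
  have hd1 : (1 : ℝ) ≤ d := by
    have : 1 ≤ d := by omega
    exact_mod_cast this
  have hr : (1 : ℝ) ≤ finrank ℝ (Van d S) := by
    have h1 := finrank_van d S
    have h2 : d + 1 ≤ (d + 1) * (d + 2) / 2 := by
      rw [Nat.le_div_iff_mul_le two_pos]
      nlinarith
    have h3 : 1 ≤ finrank ℝ (Van d S) := by omega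
    exact_mod_cast h3
  have hρ : 1 / (10 ^ 4 * (d : ℝ)) ≤ 1 := by
    rw [div_le_one (by positivity)]
    linarith
  have h1 := dim_badWin (S := Further d S) (pos := vec d) hv hτ hE (by linarith) hθ1 (further_thin S hd)
  refine ⟨BadWin (Further d S) (vec d) v θ, h1, fun hlt => ?_, fun α _ hα => ?_⟩
  · have h2 : dimH (BadWin (Further d S) (vec d) v θ) < ((finrank ℝ (Van d S) : NNReal) : ENNReal) := by
      refine h1.trans_lt ?_
      have h3 : ((finrank ℝ (Van d S) : NNReal) : ENNReal) = ENNReal.ofReal (finrank ℝ (Van d S) : ℝ) := by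
        rw [ENNReal.ofReal_natCast]
        rfl
      rw [h3, ENNReal.ofReal_lt_ofReal_iff (by linarith)]
      exact hlt
    have h4 := hausdorffMeasure_of_dimH_lt h2
    simpa using h4
  · rw [BadWin] at hα
    by_contra hcon
    apply hα
    intro n1
    push Not at hcon
    obtain ⟨n, hn, F, hF, h2, h3, x, y, h4, h5⟩ := hcon n1
    refine ⟨n, hn, F, ⟨hF, h2, x, y, h5, h4⟩, ?_⟩
    rw [pi_norm_le_iff_of_nonneg (Real.rpow_nonneg (by linarith [hv n]) _)]
    intro m
    rw [Real.norm_eq_abs]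
    exact h3 m

end Pool.Agent.Results.MP_2d259b_nt.WindowsThroughPoints
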